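import Pool.Agent.Helper10.GO.GoalsC

/-!
# Project GO, packet RECK: the sections for a gap
-/

set_option autoImplicit false

open MvPolynomial Filter Topology

noncomputable section

namespace Pool.Agent.Helper74.GO

open Pool.Agent.Helper10.GO

theorem vp_mono {d : ℕ} {D : Fin (d + 1) → ℝ} (hD : ∀ i, 0 ≤ D i) {a a' e e' : ℝ} (ha : 0 ≤ a)
    (haa : a ≤ a') (he : 0 ≤ e) (hee : e ≤ e') : vp d D a e ≤ vp d D a' e' := by
  unfold vp
  refine Finset.sum_le_sum fun i _ => ?_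
  have h1 : a ^ (d - (i : ℕ)) ≤ a' ^ (d - (i : ℕ)) := pow_le_pow_left₀ ha haa _
  have h2 : e ^ (i : ℕ) ≤ e' ^ (i : ℕ) := pow_le_pow_left₀ he hee _
  have h3 : 0 ≤ a ^ (d - (i : ℕ)) := pow_nonneg ha _
  have h4 : 0 ≤ e ^ (i : ℕ) := pow_nonneg he _
  have h5 := hD i
  exact mul_le_mul (mul_le_mul_of_nonneg_left h1 h5) h2 h4
    (mul_nonneg h5 (h3.trans h1))

theorem vp_hom (d : ℕ) (D : Fin (d + 1) → ℝ) (c a e : ℝ) :
    vp d D (c * a) (c * e) = c ^ d * vp d D a e := by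
  unfold vp
  rw [Finset.mul_sum]
  refine Finset.sum_congr rfl fun i _ => ?_
  have h : d = (d - (i : ℕ)) + (i : ℕ) := by omega
  rw [mul_pow, mul_pow]
  calc D i * (c ^ (d - (i : ℕ)) * a ^ (d - (i : ℕ))) * (c ^ (i : ℕ) * e ^ (i : ℕ))
      = c ^ ((d - (i : ℕ)) + (i : ℕ)) * (D i * a ^ (d - (i : ℕ)) * e ^ (i : ℕ)) := by
        rw [pow_add]
        ring
    _ = _ := by rw [← h]

theorem vp_nonneg {d : ℕ} {D : Fin (d + 1) → ℝ} (hD : ∀ i, 0 ≤ D i) {a e : ℝ} (ha : 0 ≤ a)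
    (he : 0 ≤ e) : 0 ≤ vp d D a e :=
  Finset.sum_nonneg fun i _ => mul_nonneg (mul_nonneg (hD i) (pow_nonneg ha _)) (pow_nonneg he _)

theorem vp_pos {d : ℕ} {D : Fin (d + 1) → ℝ} (hD : ∀ i, 0 ≤ D i) (h0 : 0 < D 0) {a e : ℝ}
    (ha : 0 < a) (he : 0 ≤ e) : 0 < vp d D a e := by
  unfold vp
  have h1 : D 0 * a ^ (d - ((0 : Fin (d + 1)) : ℕ)) * e ^ ((0 : Fin (d + 1)) : ℕ) ≤
      ∑ i : Fin (d + 1), D i * a ^ (d - (i : ℕ)) * e ^ (i : ℕ) :=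
    Finset.single_le_sum (f := fun i : Fin (d + 1) => D i * a ^ (d - (i : ℕ)) * e ^ (i : ℕ))
      (fun i _ => mul_nonneg (mul_nonneg (hD i) (pow_nonneg ha.le _)) (pow_nonneg he _))
      (Finset.mem_univ 0)
  have h2 : 0 < D 0 * a ^ (d - ((0 : Fin (d + 1)) : ℕ)) * e ^ ((0 : Fin (d + 1)) : ℕ) := by
    simp only [Fin.val_zero, pow_zero, mul_one]
    exact mul_pos h0 (pow_pos ha _)
  exact h2.trans_le h1

/-- the analytic part -/
theorem growth {d : ℕ} {D : ℕ → Fin (d + 1) → ℝ} {G : ℝ → ℝ} {σ₁ σ₂ : ℝ}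
    (hD : ∀ m i, 0 ≤ D m i) (h0 : ∀ m, 0 < D m 0)
    (hG : ∀ σ : ℝ, Tendsto (fun n : ℕ => Real.log (vp d (D n) (Real.exp (n * σ)) 1) / n) atTop
      (𝓝 (G σ)))
    (hg : G σ₁ + G σ₂ = 2 * G ((σ₁ + σ₂) / 2)) (C : ℝ) (hC : 0 < C) {ε : ℝ} (hε : 0 < ε) :
    ∀ᶠ m : ℕ in atTop, C * vp d (D m) (Real.exp (m * σ₁)) 1 * vp d (D m) (Real.exp (m * σ₂)) 1 /
      vp d (D (2 * m)) (Real.exp (m * (σ₁ + σ₂))) 1 ≤ Real.exp (ε * m) := by
  have h1 : Tendsto (fun m : ℕ => Real.log C / m) atTop (𝓝 0) :=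
    tendsto_const_div_atTop_nhds_zero_nat _
  have h2 : Tendsto (fun m : ℕ => 2 * m) atTop atTop :=
    tendsto_id.const_mul_atTop' two_pos
  have h3 := (hG ((σ₁ + σ₂) / 2)).comp h2
  have h4 : Tendsto (fun m : ℕ => Real.log C / m +
      Real.log (vp d (D m) (Real.exp (m * σ₁)) 1) / m +
      Real.log (vp d (D m) (Real.exp (m * σ₂)) 1) / m -
      2 * ((fun n : ℕ => Real.log (vp d (D n) (Real.exp (n * ((σ₁ + σ₂) / 2))) 1) / n) ∘
        fun m : ℕ => 2 * m) m) atTop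
      (𝓝 (0 + G σ₁ + G σ₂ - 2 * G ((σ₁ + σ₂) / 2))) :=
    ((h1.add (hG σ₁)).add (hG σ₂)).sub (h3.const_mul 2)
  have h5 : 0 + G σ₁ + G σ₂ - 2 * G ((σ₁ + σ₂) / 2) = 0 := by linarith
  rw [h5] at h4
  have h6 := h4.eventually (gt_mem_nhds hε)
  filter_upwards [h6, eventually_ge_atTop 1] with m hm hm1
  have hmr : (0 : ℝ) < m := by exact_mod_cast hm1
  have p1 : 0 < vp d (D m) (Real.exp (m * σ₁)) 1 :=
    vp_pos (hD m) (h0 m) (Real.exp_pos _) zero_le_one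
  have p2 : 0 < vp d (D m) (Real.exp (m * σ₂)) 1 :=
    vp_pos (hD m) (h0 m) (Real.exp_pos _) zero_le_one
  have p3 : 0 < vp d (D (2 * m)) (Real.exp (m * (σ₁ + σ₂))) 1 :=
    vp_pos (hD _) (h0 _) (Real.exp_pos _) zero_le_one
  rw [← Real.log_le_iff_le_exp (by positivity), Real.log_div (by positivity) p3.ne',
    Real.log_mul (by positivity) p2.ne', Real.log_mul hC.ne' p1.ne']
  simp only [Function.comp_apply] at hm
  have e1 : ((2 * m : ℕ) : ℝ) * ((σ₁ + σ₂) / 2) = m * (σ₁ + σ₂) := by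
    push_cast
    ring
  rw [e1] at hm
  have e2 : Real.log C / m +
      Real.log (vp d (D m) (Real.exp (m * σ₁)) 1) / m +
      Real.log (vp d (D m) (Real.exp (m * σ₂)) 1) / m -
      2 * (Real.log (vp d (D (2 * m)) (Real.exp (m * (σ₁ + σ₂))) 1) / ((2 * m : ℕ) : ℝ)) =
      (Real.log C + Real.log (vp d (D m) (Real.exp (m * σ₁)) 1) +
      Real.log (vp d (D m) (Real.exp (m * σ₂)) 1) -
      Real.log (vp d (D (2 * m)) (Real.exp (m * (σ₁ + σ₂))) 1)) / m := by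
    push_cast
    field_simp
  rw [e2, div_lt_iff₀ hmr] at hm
  exact hm.le

/-- the elementary inequality for large `m` -/
theorem large {ε : ℝ} (hε : 0 < ε) (c : ℝ) (hc : 0 ≤ c) :
    ∀ᶠ m : ℕ in atTop, 2 * (c * Real.exp (ε / 2 * m) + 1) ≤ Real.exp (ε * m) := by
  have h1 : Tendsto (fun m : ℕ => Real.exp (ε / 2 * m)) atTop atTop :=
    Real.tendsto_exp_atTop.comp
      (Tendsto.const_mul_atTop (half_pos hε) tendsto_natCast_atTop_atTop)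
  filter_upwards [h1.eventually_ge_atTop (2 * c + 2)] with m hm
  have h2 : Real.exp (ε * m) = Real.exp (ε / 2 * m) * Real.exp (ε / 2 * m) := by
    rw [← Real.exp_add]
    congr 1
    ring
  rw [h2]
  have h3 : 1 ≤ Real.exp (ε / 2 * m) := by linarith
  nlinarith

theorem reck (hTRN : S_TRN) (hDIF : S_DIF) (hNEAR : S_NEAR) (hISO : S_ISO) (hVTRI : S_VTRI) :
    S_RECK := by
  intro K _ _ _ N δ d Γ ξ D G σ₁ σ₂ hgen hvol hσ hG hg ε hε
  have hfac : (0 : ℝ) < (d.factorial : ℝ) := by exact_mod_cast d.factorial_pos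
  have hD := hvol.nn
  have hD0 : ∀ m, 0 < D m 0 := fun m =>
    (by positivity : (0 : ℝ) < 1 / (d.factorial : ℝ)).trans_le (hvol.low0 m)
  obtain ⟨-, -, hne, -⟩ := hISO K N δ Γ ξ hgen
  set C : ℝ := 2 * d.factorial * 8 ^ d with hCdef
  have hC : 0 < C := by positivity
  filter_upwards [growth hD hD0 hG hg C hC (half_pos hε),
    large hε ((N : ℝ) ^ 2) (by positivity)] with m hQ hlarge
  set φ₁ : ℝ := vp d (D m) (Real.exp (m * σ₁)) 1 with hφ₁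
  set φ₂ : ℝ := vp d (D m) (Real.exp (m * σ₂)) 1 with hφ₂
  set φ₃ : ℝ := vp d (D (2 * m)) (Real.exp (m * (σ₁ + σ₂))) 1 with hφ₃
  have p1 : 0 < φ₁ := vp_pos (hD m) (hD0 m) (Real.exp_pos _) zero_le_one
  have p2 : 0 < φ₂ := vp_pos (hD m) (hD0 m) (Real.exp_pos _) zero_le_one
  have p3 : 0 < φ₃ := vp_pos (hD _) (hD0 _) (Real.exp_pos _) zero_le_one
  set Qm : ℝ := C * φ₁ * φ₂ / φ₃ with hQm
  have hQpos : 0 < Qm := by positivity
  set u : ℝ := Real.exp (m * σ₂) with hu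
  set v : ℝ := Real.exp (m * (σ₁ + σ₂)) with hv
  have hupos : 0 < u := Real.exp_pos _
  have hvpos : 0 < v := Real.exp_pos _
  have huv : v = u * Real.exp (m * σ₁) := by
    rw [hu, hv, ← Real.exp_add]
    congr 1
    ring
  set c : ℝ := (N : ℝ) ^ 2 * Qm + 1 with hc
  have hc1 : 1 ≤ c := by
    have : 0 ≤ (N : ℝ) ^ 2 * Qm := by positivity
    linarith
  -- the choice of `E₁`
  obtain ⟨E₁, hE1, hEv, hEu⟩ : ∃ E₁ : ℕ, 1 ≤ E₁ ∧ 1 ≤ v * E₁ ∧ c ≤ u * E₁ := by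
    obtain ⟨n₁, hn₁⟩ := exists_nat_ge (1 / v)
    obtain ⟨n₂, hn₂⟩ := exists_nat_ge (c / u)
    refine ⟨max 1 (max n₁ n₂), le_max_left _ _, ?_, ?_⟩
    · rw [div_le_iff₀ hvpos] at hn₁
      have : (n₁ : ℝ) ≤ ((max 1 (max n₁ n₂) : ℕ) : ℝ) := by
        exact_mod_cast (le_max_left _ _).trans (le_max_right _ _)
      nlinarith
    · rw [div_le_iff₀ hupos] at hn₂
      have : (n₂ : ℝ) ≤ ((max 1 (max n₁ n₂) : ℕ) : ℝ) := by
        exact_mod_cast (le_max_right _ _).trans (le_max_right _ _)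
      nlinarith
  have hE1r : (1 : ℝ) ≤ (E₁ : ℝ) := by exact_mod_cast hE1
  have hE1p : (0 : ℝ) < (E₁ : ℝ) := by linarith
  set a : ℕ := ⌈v * E₁⌉₊ with ha
  set b₁ : ℕ := ⌈u * E₁⌉₊ with hb₁
  have ha1 : v * E₁ ≤ a := Nat.le_ceil _
  have ha2 : (a : ℝ) ≤ 2 * (v * E₁) := by
    have := Nat.ceil_lt_add_one (a := v * E₁) (by positivity)
    linarith
  have hb1 : u * E₁ ≤ b₁ := Nat.le_ceil _
  have hb2 : (b₁ : ℝ) ≤ 2 * (u * E₁) := by
    have := Nat.ceil_lt_add_one (a := u * E₁) (by positivity)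
    linarith
  have ha1' : 1 ≤ a := by
    have : (1 : ℝ) ≤ (a : ℝ) := hEv.trans ha1
    exact_mod_cast this
  have hb1' : 1 ≤ b₁ := by
    have : (1 : ℝ) ≤ (b₁ : ℝ) := (hc1.trans hEu).trans hb1
    exact_mod_cast this
  have hb1r : (0 : ℝ) < (b₁ : ℝ) := by exact_mod_cast hb1'
  -- the estimates of the volumes
  set κ : ℝ := (d.factorial : ℝ) * vp d (D m) a ((b₁ : ℝ) + b₁) * vp d (D m) b₁ E₁ with hκ
  set κ' : ℝ := vp d (D (2 * m)) a E₁ with hκ'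
  have hκ'1 : E₁ ^ d * φ₃ ≤ κ' := by
    rw [hφ₃, ← vp_hom]
    refine vp_mono (hD _) (by positivity) ?_ (by positivity) (by rw [mul_one])
    rw [mul_comm]
    exact ha1
  have hκ'pos : 0 < κ' := lt_of_lt_of_le (by positivity) hκ'1
  have v1 : vp d (D m) a ((b₁ : ℝ) + b₁) ≤ (4 * u * E₁) ^ d * φ₁ := by
    rw [hφ₁, ← vp_hom]
    refine vp_mono (hD _) (Nat.cast_nonneg _) ?_ (by positivity) ?_
    · refine ha2.trans ?_
      rw [huv]
      have : 0 ≤ u * Real.exp (m * σ₁) * E₁ := by positivity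
      nlinarith
    · linarith
  have v2 : vp d (D m) b₁ E₁ ≤ (2 * E₁ : ℝ) ^ d * φ₂ := by
    rw [hφ₂, ← vp_hom]
    refine vp_mono (hD _) (Nat.cast_nonneg _) ?_ (by positivity) ?_
    · refine hb2.trans (le_of_eq ?_)
      ring
    · linarith
  have v3 : κ ≤ Qm / 2 * κ' * (u * E₁) ^ d := by
    calc κ ≤ d.factorial * ((4 * u * E₁) ^ d * φ₁) * ((2 * E₁ : ℝ) ^ d * φ₂) := by
          rw [hκ]
          exact mul_le_mul (mul_le_mul_of_nonneg_left v1 hfac.le) v2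
            (vp_nonneg (hD m) (Nat.cast_nonneg _) (Nat.cast_nonneg _)) (by positivity)
      _ = Qm / 2 * (E₁ ^ d * φ₃) * (u * E₁) ^ d := by
          rw [hQm, hCdef]
          have e4 : (4 * u * E₁ : ℝ) ^ d = 4 ^ d * (u * E₁) ^ d := by rw [← mul_pow]; ring_nf
          have e2 : (2 * E₁ : ℝ) ^ d = 2 ^ d * E₁ ^ d := mul_pow _ _ _
          have e8 : (8 : ℝ) ^ d = 4 ^ d * 2 ^ d := by rw [← mul_pow]; norm_num
          rw [e4, e2, e8]
          field_simp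
      _ ≤ Qm / 2 * κ' * (u * E₁) ^ d := by gcongr
  have v4 : κ < Qm * κ' * (b₁ : ℝ) ^ d := by
    calc κ ≤ Qm / 2 * κ' * (u * E₁) ^ d := v3
      _ ≤ Qm / 2 * κ' * (b₁ : ℝ) ^ d := by gcongr
      _ < Qm * κ' * (b₁ : ℝ) ^ d := by
          have : 0 < Qm * κ' * (b₁ : ℝ) ^ d := by positivity
          nlinarith
  -- the dimensions
  have hev : ∀ᶠ t : ℕ in atTop,
      (Module.finrank K (sp K (ξ 0) ^ (a * t) * sp K (ξ m) ^ (b₁ * t) *
        sp K (ξ (2 * m)) ^ (E₁ * t) : Submodule K ℂ) : ℝ) ≤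
        Qm * Module.finrank K (sp K (ξ 0) ^ (a * t) * sp K (ξ (2 * m)) ^ (E₁ * t) :
          Submodule K ℂ) := by
    set μ : ℝ := (κ + Qm * κ' * (b₁ : ℝ) ^ d) / 2 with hμ
    have l1 := hVTRI K N δ d Γ ξ D hgen hvol m a b₁ b₁ E₁ ha1' hb1' hE1 (μ - κ) (by linarith)
    have l2 : Tendsto (fun t : ℕ => (b₁ : ℝ) ^ d * (Qm * ((Module.finrank K (sp K (ξ 0) ^ (a * t) *
        sp K (ξ (2 * m)) ^ (E₁ * t) : Submodule K ℂ) : ℝ) / (t : ℝ) ^ d))) atTop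
        (𝓝 ((b₁ : ℝ) ^ d * (Qm * κ'))) :=
      ((hvol.lim (2 * m) a E₁ ha1' hE1).const_mul Qm).const_mul _
    have l3 := l2.eventually (lt_mem_nhds (a := μ) (by linarith))
    filter_upwards [l1, l3, eventually_ge_atTop 1] with t t1 t2 t3
    have ht : (0 : ℝ) < (t : ℝ) ^ d := pow_pos (by exact_mod_cast t3) d
    have hbd : (0 : ℝ) < (b₁ : ℝ) ^ d := by positivity
    rw [← hκ, add_sub_cancel] at t1
    refine le_of_mul_le_mul_right ?_ hbd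
    refine t1.trans ?_
    have t4 : μ * (t : ℝ) ^ d < ((b₁ : ℝ) ^ d * (Qm * ((Module.finrank K (sp K (ξ 0) ^ (a * t) *
        sp K (ξ (2 * m)) ^ (E₁ * t) : Submodule K ℂ) : ℝ) / (t : ℝ) ^ d))) * (t : ℝ) ^ d :=
      mul_lt_mul_of_pos_right t2 ht
    refine t4.le.trans (le_of_eq ?_)
    field_simp
  -- the exponent
  set b₂ : ℕ := ⌊(b₁ : ℝ) / c⌋₊ with hb₂
  have hcpos : 0 < c := by linarith
  have hq1 : 1 ≤ (b₁ : ℝ) / c := by
    rw [le_div_iff₀ hcpos, one_mul]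
    exact hEu.trans hb1
  have hb₂1 : 1 ≤ b₂ := Nat.le_floor (by exact_mod_cast hq1)
  have hb₂le : (b₂ : ℝ) * c ≤ b₁ := by
    rw [← le_div_iff₀ hcpos]
    exact Nat.floor_le (by positivity)
  have hb₂ge : (b₁ : ℝ) / c ≤ 2 * b₂ := by
    have h1 := Nat.lt_floor_add_one ((b₁ : ℝ) / c)
    have h2 : (1 : ℝ) ≤ (b₂ : ℝ) := by exact_mod_cast hb₂1
    rw [← hb₂] at h1
    linarith
  have hb₂r : (1 : ℝ) ≤ (b₂ : ℝ) := by exact_mod_cast hb₂1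
  have hN : (N : ℝ) ^ 2 * b₂ * Qm < b₁ := by
    have : (b₂ : ℝ) * c = (N : ℝ) ^ 2 * b₂ * Qm + b₂ := by
      rw [hc]
      ring
    linarith
  have hfin : Real.exp ((σ₂ - ε) * m) * E₁ ≤ b₂ := by
    have h1 : 2 * c ≤ Real.exp (ε * m) := by
      have h2 : Qm ≤ Real.exp (ε / 2 * m) := hQ
      have h3 : (N : ℝ) ^ 2 * Qm ≤ (N : ℝ) ^ 2 * Real.exp (ε / 2 * m) := by gcongr
      rw [hc]
      linarith
    have h4 : Real.exp ((σ₂ - ε) * m) * Real.exp (ε * m) = u := by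
      rw [hu, ← Real.exp_add]
      congr 1
      ring
    have h5 : u * E₁ ≤ 2 * b₂ * c := by
      rw [div_le_iff₀ hcpos] at hb₂ge
      exact hb1.trans hb₂ge
    have h6 : Real.exp ((σ₂ - ε) * m) * E₁ * (2 * c) ≤ b₂ * (2 * c) := by
      calc Real.exp ((σ₂ - ε) * m) * E₁ * (2 * c)
          ≤ Real.exp ((σ₂ - ε) * m) * E₁ * Real.exp (ε * m) := by gcongr
        _ = u * E₁ := by rw [← h4]; ring
        _ ≤ 2 * b₂ * c := h5
        _ = b₂ * (2 * c) := by ring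
    exact le_of_mul_le_mul_right h6 (by linarith)
  -- the differences
  obtain ⟨I, hI1, hI2, -⟩ := hTRN K ℂ 3 N ![ξ 0, ξ m, ξ (2 * m)]
  obtain ⟨B, hB⟩ := hDIF K 3 N 2 I hI1
  have hIf : HF I = hf K ![ξ 0, ξ m, ξ (2 * m)] := funext hI2
  have hdiff : ∀ β : Fin 3 → ℕ, (∀ i, B ≤ β i) →
      0 ≤ fds [1, 1] (hf K ![ξ 0, ξ m, ξ (2 * m)]) β := by
    intro β hβ
    have := hB [1, 1] (by simp) β hβ
    rwa [hIf] at this
  obtain ⟨t, ht, s, hs, hsec⟩ := hNEAR K ℂ N (ξ 0) (ξ m) (ξ (2 * m)) B (hne _) (hne _) (hne _)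
    hdiff a b₁ b₂ E₁ Qm ha1' hb₂1 hE1 hN hev (2 * B + 1)
  have ht1 : 1 ≤ t := by omega
  have htr : (1 : ℝ) ≤ (t : ℝ) := by exact_mod_cast ht1
  refine ⟨a * t, b₂ * t, B, E₁ * t, Nat.mul_pos hb₂1 ht1, Nat.mul_pos hE1 ht1, ?_, ?_, ?_,
    s, hs, hsec⟩
  · calc 2 * B ≤ 1 * t := by omega
      _ ≤ b₂ * t := Nat.mul_le_mul_right _ hb₂1
  · push_cast
    have h1 : v = Real.exp ((σ₁ + σ₂) * m) := by
      rw [hv, mul_comm]
    rw [← h1]
    nlinarith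
  · push_cast
    nlinarith

end Pool.Agent.Helper74.GO
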