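import Pool.Agent.Helper10.GO.GoalsP

/-!
# Project GO, packet INT: the expansion in binomial coefficients
-/

set_option autoImplicit false

open MvPolynomial Filter Topology

noncomputable section

namespace Pool.Agent.Helper74.GO

open Pool.Agent.Helper10.GO

section

variable {R : Type} [CommRing R] {N : ℕ} (H : Fin N → MvPolynomial (Fin N) R)

/-- the difference operator -/
def dl (ψ : MvPolynomial (Fin N) R) : MvPolynomial (Fin N) R := aeval H ψ - ψ

theorem dl_dvd {ϖ : R} (hH : ∀ i, ∃ Q : MvPolynomial (Fin N) R, H i = X i + C ϖ * Q)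
    (ψ : MvPolynomial (Fin N) R) : C ϖ ∣ dl H ψ := by
  unfold dl
  induction ψ using MvPolynomial.induction_on with
  | C a =>
    rw [aeval_C, algebraMap_eq, sub_self]
    exact dvd_zero _
  | add f g hf hg =>
    rw [map_add]
    have : aeval H f + aeval H g - (f + g) = (aeval H f - f) + (aeval H g - g) := by ring
    rw [this]
    exact dvd_add hf hg
  | mul_X f i hf =>
    rw [map_mul, aeval_X]
    obtain ⟨Q, hQ⟩ := hH i
    have : aeval H f * H i - f * X i = (aeval H f - f) * H i + C ϖ * (f * Q) := by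
      rw [hQ]
      ring
    rw [this]
    exact dvd_add (Dvd.dvd.mul_right hf _) (dvd_mul_right _ _)

theorem dl_dvd_pow {ϖ : R} (hH : ∀ i, ∃ Q : MvPolynomial (Fin N) R, H i = X i + C ϖ * Q)
    (ψ : MvPolynomial (Fin N) R) (j : ℕ) : C (ϖ ^ j) ∣ (dl H)^[j] ψ := by
  induction j with
  | zero =>
    rw [pow_zero, C_1]
    exact one_dvd _
  | succ j ih =>
    rw [Function.iterate_succ_apply']
    obtain ⟨χ, hχ⟩ := ih
    have h1 : dl H (C (ϖ ^ j) * χ) = C (ϖ ^ j) * dl H χ := by
      unfold dl
      rw [map_mul, aeval_C, algebraMap_eq]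
      ring
    rw [hχ, h1, pow_succ, C_mul]
    exact mul_dvd_mul_left _ (dl_dvd H hH χ)

theorem eval_aeval' (b : Fin N → R) (ψ : MvPolynomial (Fin N) R) :
    eval b (aeval H ψ) = eval (fun i => eval b (H i)) ψ := by
  induction ψ using MvPolynomial.induction_on with
  | C a => rw [aeval_C, algebraMap_eq, eval_C, eval_C]
  | add f g hf hg => rw [map_add, map_add, map_add, hf, hg]
  | mul_X f i hf => rw [map_mul, map_mul, map_mul, aeval_X, eval_X, hf]

theorem expand (y : ℕ → Fin N → R) (hy : ∀ n i, y (n + 1) i = eval (y n) (H i)) (n : ℕ) :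
    ∀ φ : MvPolynomial (Fin N) R, eval (y n) φ =
      ∑ j ∈ Finset.range (n + 1), (n.choose j : R) * eval (y 0) ((dl H)^[j] φ) := by
  induction n with
  | zero =>
    intro φ
    rw [zero_add, Finset.sum_range_one, Nat.choose_self, Nat.cast_one, one_mul]
    rfl
  | succ n ih =>
    intro φ
    have h1 : eval (y (n + 1)) φ = eval (y n) φ + eval (y n) (dl H φ) := by
      rw [← map_add]
      unfold dl
      rw [add_sub_cancel, eval_aeval']
      congr 1
      congr 1
      funext i
      exact hy n i
    rw [h1, ih, ih, Finset.sum_range_succ' _ (n + 1)]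
    have h2 : ∀ j, (((n + 1).choose (j + 1) : ℕ) : R) * eval (y 0) ((dl H)^[j + 1] φ) =
        (n.choose j : R) * eval (y 0) ((dl H)^[j] (dl H φ)) +
        (n.choose (j + 1) : R) * eval (y 0) ((dl H)^[j + 1] φ) := by
      intro j
      rw [Nat.choose_succ_succ, Nat.cast_add, add_mul, Function.iterate_succ_apply]
    simp_rw [h2]
    rw [Finset.sum_add_distrib, Finset.sum_range_succ (fun j => (n.choose (j + 1) : R) * _) n,
      Nat.choose_succ_self, Nat.cast_zero, zero_mul, add_zero,
      Finset.sum_range_succ' (fun j => (n.choose j : R) * eval (y 0) ((dl H)^[j] φ)) n]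
    simp only [Nat.choose_zero_right]
    ring

end

theorem intp : S_INT := by
  intro p _ N H y φ hH hy
  refine ⟨fun j => eval (y 0) ((dl H)^[j] φ), fun j => ?_, fun n => expand H y hy n φ⟩
  obtain ⟨χ, hχ⟩ := dl_dvd_pow H hH φ j
  simp only
  rw [hχ, map_mul, eval_C]
  exact dvd_mul_right _ _

end Pool.Agent.Helper74.GO
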