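import Pool.Agent.Helper40.GO.GoalsQ

/-!
# Project GO (MP_6af536_nt), packet QCERT: the certificate for unramified maps
-/

set_option autoImplicit false

open MvPolynomial Filter Topology

noncomputable section

namespace Pool.Agent.Helper74.GO

open Pool.Agent.Helper10.GO Pool.Agent.Helper40.GO

/-- A family of vectors without common orthogonal vector contains a basis. -/
theorem exists_det {k : Type} [Field k] {n : ℕ} {I : Type} (w : I → Fin n → k)
    (h : ∀ v : Fin n → k, (∀ i, ∑ j, w i j * v j = 0) → v = 0) :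
    ∃ ρ : Fin n → I, (Matrix.of fun i j => w (ρ i) j).det ≠ 0 := by
  have hs : ⊤ ≤ Submodule.span k (Set.range w) := by
    by_contra hne
    obtain ⟨f, hf0, hf⟩ := Submodule.exists_le_ker_of_lt_top (Submodule.span k (Set.range w))
      (lt_top_iff_ne_top.2 fun h => hne h.ge)
    apply hf0
    have h1 : (fun i => f fun j => if i = j then 1 else 0) = 0 := by
      apply h
      intro i
      have h2 : f (w i) = 0 := hf (Submodule.subset_span ⟨i, rfl⟩)
      rw [LinearMap.pi_apply_eq_sum_univ f (w i)] at h2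
      exact h2
    apply LinearMap.ext
    intro x
    rw [LinearMap.pi_apply_eq_sum_univ f x]
    refine Finset.sum_eq_zero fun i _ => ?_
    rw [congrFun h1 i]
    exact smul_zero _
  let b := Module.Basis.ofSpan hs
  let e := b.indexEquiv (Pi.basisFun k (Fin n))
  let b' := b.reindex e
  have hb : ∀ i, ∃ a, w a = b' i := by
    intro i
    have h1 : b (e.symm i) ∈ Set.range w := Module.Basis.ofSpan_subset hs ⟨_, rfl⟩
    obtain ⟨a, ha⟩ := h1
    exact ⟨a, by rw [ha]; exact (b.reindex_apply e i).symm⟩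
  choose ρ hρ using hb
  refine ⟨ρ, ?_⟩
  have h2 : LinearIndependent k (Matrix.of fun i j => w (ρ i) j).row := by
    have h3 : (Matrix.of fun i j => w (ρ i) j).row = b' := by
      funext i
      exact hρ i
    rw [h3]
    exact b'.linearIndependent
  have h3 := Matrix.linearIndependent_rows_iff_isUnit.1 h2
  exact ((Matrix.isUnit_iff_isUnit_det _).1 h3).ne_zero

/-- **QCERT**. -/
theorem qcert (hQ : S_QNUL) : S_QCERT := by
  intro K _ _ N f ι _ P hP hU
  classical
  let EE : Type := {E : MvPolynomial (Fin (N + 1)) K //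
    (∃ d, E.IsHomogeneous d) ∧ ∀ z, f.Mem z → aeval z E = 0}
  let grad : Fin f.r → Fin (N + 1) ⊕ EE → Fin (N + 1) → MvPolynomial (Fin (N + 1)) K :=
    fun l a j => Sum.elim (fun i' => pderiv j (f.G l i')) (fun E => pderiv j E.1) a
  let T₀ : Type := Fin f.r × ι × (Fin (N + 1) → Fin (N + 1) ⊕ EE)
  let Th : T₀ → MvPolynomial (Fin (N + 1)) K := fun t =>
    aeval (f.G t.1) (P t.2.1) * (Matrix.of fun i j => grad t.1 (t.2.2 i) j).det
  let gens : T₀ ⊕ EE → MvPolynomial (Fin (N + 1)) K := Sum.elim Th (fun E => E.1)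
  have key : ∀ c, ∃ e : ℕ, P c ^ e ∈ Ideal.span (Set.range gens) := by
    intro c
    apply hQ K (Fin (N + 1)) (Set.range gens) (P c)
    intro y hy
    by_cases hy0 : y = 0
    · obtain ⟨e, he, hPe⟩ := hP c
      rw [hy0, aeval_zero, constantCoeff_eq, hPe.coeff_eq_zero, map_zero]
      rw [map_zero]
      omega
    by_contra hc
    have hm : f.Mem y := ⟨hy0, fun E hE =>
      hy E ⟨Sum.inr ⟨E, f.eqs_homog E hE, fun z hz => hz.2 E hE⟩, rfl⟩⟩
    obtain ⟨l, ⟨c', hc'⟩, hinj⟩ := hU y hm ⟨c, hc⟩
    obtain ⟨ρ, hρ⟩ := exists_det (fun (a : Fin (N + 1) ⊕ EE) j => aeval y (grad l a j)) (by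
      intro v hv
      apply hinj v
      · intro i
        exact hv (Sum.inl i)
      · intro d E hE hE0
        exact hv (Sum.inr ⟨E, ⟨d, hE⟩, hE0⟩))
    have h0 := hy _ ⟨Sum.inl (l, c', ρ), rfl⟩
    have h1 : aeval y (aeval (f.G l) (P c') * (Matrix.of fun i j => grad l (ρ i) j).det) = 0 := h0
    rw [map_mul, mul_eq_zero] at h1
    rcases h1 with h1 | h1
    · apply hc'
      rw [← h1, comp_aeval_apply]
    · apply hρ
      rw [← h1, AlgHom.map_det]
      rfl
  choose e he using key
  have hc : ∀ c, ∃ q : (T₀ ⊕ EE) →₀ MvPolynomial (Fin (N + 1)) K,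
      (q.sum fun i a => a • gens i) = P c ^ e c :=
    fun c => Finsupp.mem_span_range_iff_exists_finsupp.1 (he c)
  choose q hq using hc
  have hfin := Fintype.ofFinite ι
  let S₀ : Finset (T₀ ⊕ EE) := Finset.univ.biUnion fun c => (q c).support
  let Ts : Finset T₀ := S₀.toLeft
  let Es : Finset EE := S₀.toRight ∪ Ts.biUnion fun t => (Finset.univ.image t.2.2).toRight
  let idx : EE → Fin (N + 1) ⊕ Fin Es.card := fun E =>
    if h : E ∈ Es then Sum.inr (Es.equivFin ⟨E, h⟩) else Sum.inl 0
  refine ⟨Es.card, fun i => (Es.equivFin.symm i).1.1, Ts, inferInstance, fun t => t.1.1,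
    fun t => t.1.2.1, fun t i => Sum.elim Sum.inl idx (t.1.2.2 i), fun c t => q c (Sum.inl t.1),
    fun c i => q c (Sum.inr (Es.equivFin.symm i).1), e, ?_, ?_, ?_⟩
  · intro i
    exact (Es.equivFin.symm i).1.2.1
  · intro i
    exact (Es.equivFin.symm i).1.2.2
  · intro c
    have hsub : (q c).support ⊆ Ts.disjSum Es := by
      intro a ha
      have haS : a ∈ S₀ := Finset.mem_biUnion.2 ⟨c, Finset.mem_univ _, ha⟩
      rcases a with a | a
      · exact Finset.inl_mem_disjSum.2 (Finset.mem_toLeft.2 haS)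
      · exact Finset.inr_mem_disjSum.2 (Finset.mem_union_left _ (Finset.mem_toRight.2 haS))
    rw [← hq c, Finsupp.sum_of_support_subset _ hsub _ (by intros; exact zero_smul _ _),
      Finset.sum_disjSum]
    congr 1
    · rw [← Finset.sum_coe_sort Ts]
      refine Finset.sum_congr rfl fun t _ => ?_
      have hmat : rowMat (f.G t.1.1) (fun i => (Es.equivFin.symm i).1.1)
          (fun i => Sum.elim Sum.inl idx (t.1.2.2 i)) =
          Matrix.of fun i j => grad t.1.1 (t.1.2.2 i) j := by
        ext1 i j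
        show Sum.elim (fun i' => pderiv j (f.G t.1.1 i'))
          (fun i' => pderiv j (Es.equivFin.symm i').1.1) (Sum.elim Sum.inl idx (t.1.2.2 i)) =
          Sum.elim (fun i' => pderiv j (f.G t.1.1 i')) (fun E => pderiv j E.1) (t.1.2.2 i)
        rcases hti : t.1.2.2 i with a | E
        · rfl
        · have hE : E ∈ Es := by
            refine Finset.mem_union_right _ (Finset.mem_biUnion.2 ⟨t.1, t.2, ?_⟩)
            refine Finset.mem_toRight.2 (Finset.mem_image.2 ⟨i, Finset.mem_univ _, hti⟩)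
          show Sum.elim (fun i' => pderiv j (f.G t.1.1 i'))
            (fun i' => pderiv j (Es.equivFin.symm i').1.1) (idx E) = pderiv j E.1
          have hidx : idx E = Sum.inr (Es.equivFin ⟨E, hE⟩) := dif_pos hE
          rw [hidx]
          show pderiv j (Es.equivFin.symm (Es.equivFin ⟨E, hE⟩)).1.1 = pderiv j E.1
          rw [Equiv.symm_apply_apply]
      rw [hmat]
      rfl
    · rw [← Finset.sum_coe_sort Es, ← Equiv.sum_comp Es.equivFin.symm]
      rfl

end Pool.Agent.Helper74.GO
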